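import Pool.Agent.H43.PS.Targets2

/-!
# psd_modules, row EXP: the exponent 1/2
-/

set_option autoImplicit false

namespace Pool.Agent.H68.PSD

open Matrix Finset
open H43.PS

/-- The bound for the error term. -/
theorem xx_le {Q q p σ r m sh : ℝ} {N h : ℕ} (hQ : 1 ≤ Q) (hq : 0 < q) (hp : 1 < p)
    (hp2 : p < 3 / 2) (hσ : 0 < σ) (hσp : σ ^ (2 * p) = (p - 1) * q / Q) (hr : 0 ≤ r)
    (hm : 0 ≤ m) (hsh : 0 ≤ sh) (hsh1 : sh ≤ 1) :
    XX Q q p σ r (2 * m) (sh * r ^ p) N h ≤ 2 ^ N * (σ⁻¹) ^ (2 * (h + 1)) * (2 * m) *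
      (r ^ (2 - 1 / p) * ((Q + 1) ^ N * (2 * (Q + 1)) ^ N)) := by
  have hp0 : 0 < p := by linarith
  have hip : 0 < 1 / p := by positivity
  have hip1 : 1 / p < 1 := by rw [div_lt_one hp0]; exact hp
  have hK : KK Q q p σ ≤ 2 * (Q + 1) := by
    unfold KK
    have h1 : σ ^ (2 * p) * (Q / ((p - 1) * q)) = 1 := by
      rw [hσp]
      have : p - 1 ≠ 0 := by linarith
      have : Q ≠ 0 := by linarith
      field_simp
    rw [h1]
    have h2 : (Q + 1) ^ (p - 1) ≤ (Q + 1) ^ (1 : ℝ) :=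
      Real.rpow_le_rpow_of_exponent_le (by linarith) (by linarith)
    rw [Real.rpow_one] at h2
    linarith
  have hK1 : 1 ≤ KK Q q p σ := by
    unfold KK
    have h1 : 1 ≤ (Q + 1) ^ (p - 1) := Real.one_le_rpow (by linarith) (by linarith)
    have h2 : 0 ≤ σ ^ (2 * p) * (Q / ((p - 1) * q)) := by
      have : 0 ≤ p - 1 := by linarith
      positivity
    nlinarith
  have hQN : 1 ≤ (Q + 1) ^ N := one_le_pow₀ (by linarith)
  have hKN : 1 ≤ KK Q q p σ ^ N := one_le_pow₀ hK1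
  have e1 : (r * (Q + 1) ^ N) ^ (1 - 1 / p) ≤ r ^ (1 - 1 / p) * (Q + 1) ^ N := by
    rw [Real.mul_rpow hr (by positivity)]
    refine mul_le_mul_of_nonneg_left ?_ (Real.rpow_nonneg hr _)
    have h2 := Real.rpow_le_rpow_of_exponent_le hQN (show 1 - 1 / p ≤ 1 by linarith)
    rwa [Real.rpow_one] at h2
  have e2 : (KK Q q p σ ^ N * (sh * r ^ p)) ^ (1 / p) ≤ (2 * (Q + 1)) ^ N * r := by
    rw [Real.mul_rpow (by positivity) (mul_nonneg hsh (Real.rpow_nonneg hr _)),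
      Real.mul_rpow hsh (Real.rpow_nonneg hr _)]
    have a1 : (KK Q q p σ ^ N) ^ (1 / p) ≤ (2 * (Q + 1)) ^ N := by
      have h2 := Real.rpow_le_rpow_of_exponent_le hKN hip1.le
      rw [Real.rpow_one] at h2
      exact h2.trans (pow_le_pow_left₀ (by linarith) hK N)
    have a2 : sh ^ (1 / p) ≤ 1 := Real.rpow_le_one hsh hsh1 hip.le
    have a3 : (r ^ p) ^ (1 / p) = r := by
      rw [one_div]
      exact Real.rpow_rpow_inv hr hp0.ne'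
    rw [a3]
    have a4 : 0 ≤ (KK Q q p σ ^ N) ^ (1 / p) := Real.rpow_nonneg (by positivity) _
    have a5 : sh ^ (1 / p) * r ≤ r := by
      have := mul_le_mul_of_nonneg_right a2 hr
      linarith
    exact mul_le_mul a1 a5 (mul_nonneg (Real.rpow_nonneg hsh _) hr) (by positivity)
  have e3 : r ^ (2 - 1 / p) = r ^ (1 - 1 / p) * r := by
    have h2 := Real.rpow_add_one' hr (show 1 - 1 / p + 1 ≠ 0 by linarith)
    rw [← h2]
    congr 1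
    ring
  unfold XX
  have hb : 0 ≤ 2 ^ N * (σ⁻¹) ^ (2 * (h + 1)) * (2 * m) := by positivity
  refine mul_le_mul_of_nonneg_left ?_ hb
  refine (mul_le_mul e1 e2 (Real.rpow_nonneg (mul_nonneg (by positivity)
    (mul_nonneg hsh (Real.rpow_nonneg hr _))) _) (by positivity)).trans ?_
  rw [e3]
  exact le_of_eq (by ring)

/-- The bound for `σ`. -/
theorem sig_le {Q p σ r m sh δ X : ℝ} {N h : ℕ} (hQ : 1 ≤ Q)
    (hσ : 0 < σ) (hr : 0 ≤ r) (hm : 0 < m) (hm2 : m ≤ 2 ^ N)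
    (hδ : ((2 : ℝ) ^ N)⁻¹ ≤ δ) (hsh : ((2 : ℝ) ^ N)⁻¹ ≤ sh)
    (hX : X ≤ 2 ^ N * (σ⁻¹) ^ (2 * (h + 1)) * (2 * m) *
      (r ^ (2 - 1 / p) * ((Q + 1) ^ N * (2 * (Q + 1)) ^ N)))
    (H : δ ^ 2 * sh ≤ 16 * (Q ^ N) ^ 2 * m * X) :
    σ ^ (2 * (h + 1)) ≤ 32 * (128 * Q ^ 2 * (Q + 1) ^ 2) ^ N * r ^ (2 - 1 / p) := by
  set E : ℝ := 2 ^ N with hE
  have hE0 : 0 < E := by positivity
  set ra : ℝ := r ^ (2 - 1 / p)
  have hra : 0 ≤ ra := Real.rpow_nonneg hr _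
  set G : ℝ := (Q + 1) ^ N * (2 * (Q + 1)) ^ N with hG
  have hG0 : 0 ≤ G := by positivity
  have h1 : (E⁻¹) ^ 2 * E⁻¹ ≤ δ ^ 2 * sh := by
    have a0 : 0 < E⁻¹ := inv_pos.2 hE0
    exact mul_le_mul (pow_le_pow_left₀ a0.le hδ 2) hsh a0.le (by positivity)
  have h2 : 16 * (Q ^ N) ^ 2 * m * X ≤ 16 * (Q ^ N) ^ 2 * E *
      (E * (σ⁻¹) ^ (2 * (h + 1)) * (2 * E) * (ra * G)) := by
    have b1 : X ≤ E * (σ⁻¹) ^ (2 * (h + 1)) * (2 * E) * (ra * G) := by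
      refine hX.trans ?_
      have : 0 ≤ ra * G := mul_nonneg hra hG0
      gcongr
    have b2 : 0 ≤ E * (σ⁻¹) ^ (2 * (h + 1)) * (2 * E) * (ra * G) := by positivity
    have b3 : 0 ≤ 16 * (Q ^ N) ^ 2 := by positivity
    calc 16 * (Q ^ N) ^ 2 * m * X ≤ 16 * (Q ^ N) ^ 2 * m *
        (E * (σ⁻¹) ^ (2 * (h + 1)) * (2 * E) * (ra * G)) :=
          mul_le_mul_of_nonneg_left b1 (mul_nonneg b3 hm.le)
      _ ≤ _ := mul_le_mul_of_nonneg_right (mul_le_mul_of_nonneg_left hm2 b3) b2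
  have h3 := h1.trans (H.trans h2)
  have hσ0 : 0 < σ ^ (2 * (h + 1)) := pow_pos hσ _
  have h4 := mul_le_mul_of_nonneg_left h3 (mul_nonneg (pow_pos hE0 3).le hσ0.le)
  have e1 : E ^ 3 * σ ^ (2 * (h + 1)) * ((E⁻¹) ^ 2 * E⁻¹) = σ ^ (2 * (h + 1)) := by
    field_simp
  have e2 : E ^ 3 * σ ^ (2 * (h + 1)) * (16 * (Q ^ N) ^ 2 * E *
      (E * (σ⁻¹) ^ (2 * (h + 1)) * (2 * E) * (ra * G))) =
      32 * ((Q ^ N) ^ 2 * E ^ 6 * G) * ra := by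
    rw [inv_pow]
    field_simp
    ring
  have e3 : (Q ^ N) ^ 2 * E ^ 6 * G = (128 * Q ^ 2 * (Q + 1) ^ 2) ^ N := by
    rw [hG, hE, ← pow_mul, mul_comm N 2, pow_mul, ← pow_mul 2 N 6, mul_comm N 6, pow_mul,
      ← mul_pow, ← mul_pow, ← mul_pow]
    congr 1
    ring
  rw [e1, e2, e3] at h4
  exact h4

/-- The conclusion from the bound for `σ`. -/
theorem fin_le {Q q p σ r e e₁ : ℝ} {N h : ℕ} (hQ : 1 ≤ Q) (hq : 0 < q) (hp : 1 < p)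
    (hσ : 1 ≤ σ) (hr : 1 ≤ r) (hN : (1 - e₁) * N ≤ 2 * (h + 1))
    (h0 : 32 * (128 * Q ^ 2 * (Q + 1) ^ 2) * (Q * q) ^ ((2 - 1 / p) * (1 / 2 - e)) ≤
      σ ^ (1 - e₁))
    (H : σ ^ (2 * (h + 1)) ≤ 32 * (128 * Q ^ 2 * (Q + 1) ^ 2) ^ N * r ^ (2 - 1 / p)) :
    ((Q * q) ^ N) ^ (1 / 2 - e) ≤ r := by
  have hp0 : 0 < p := by linarith
  have hip1 : 1 / p < 1 := by rw [div_lt_one hp0]; exact hp
  rcases Nat.eq_zero_or_pos N with hN0 | hN0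
  · rw [hN0, pow_zero, Real.one_rpow]
    exact hr
  set C : ℝ := 128 * Q ^ 2 * (Q + 1) ^ 2 with hC
  have hC0 : 0 < C := by positivity
  set ra : ℝ := r ^ (2 - 1 / p)
  have hQq : 0 < Q * q := by positivity
  have h1 : (σ ^ (1 - e₁)) ^ N ≤ (32 * C) ^ N * ra := by
    have a1 : (σ ^ (1 - e₁)) ^ N = σ ^ ((1 - e₁) * N) := by
      rw [Real.rpow_mul (by linarith), Real.rpow_natCast]
    have a2 : σ ^ ((1 - e₁) * N) ≤ σ ^ ((2 * (h + 1) : ℕ) : ℝ) := by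
      refine Real.rpow_le_rpow_of_exponent_le hσ ?_
      push_cast
      exact hN
    rw [Real.rpow_natCast] at a2
    rw [a1]
    refine a2.trans (H.trans ?_)
    rw [mul_pow 32 C N]
    have a3 : (32 : ℝ) ≤ 32 ^ N := le_self_pow₀ (by norm_num) (by omega)
    have a4 : 0 ≤ ra := Real.rpow_nonneg (by linarith) _
    have a5 : 0 ≤ C ^ N := by positivity
    exact mul_le_mul_of_nonneg_right (mul_le_mul_of_nonneg_right a3 a5) a4
  have h2 : (32 * C * (Q * q) ^ ((2 - 1 / p) * (1 / 2 - e))) ^ N ≤ (32 * C) ^ N * ra :=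
    (pow_le_pow_left₀ (by positivity) h0 N).trans h1
  rw [mul_pow (32 * C)] at h2
  have h3 : ((Q * q) ^ ((2 - 1 / p) * (1 / 2 - e))) ^ N ≤ ra :=
    le_of_mul_le_mul_left h2 (by positivity)
  have h4 : ((Q * q) ^ ((2 - 1 / p) * (1 / 2 - e))) ^ N =
      (((Q * q) ^ N) ^ (1 / 2 - e)) ^ (2 - 1 / p) := by
    rw [← Real.rpow_natCast (Q * q) N, ← Real.rpow_mul hQq.le, ← Real.rpow_mul hQq.le,
      ← Real.rpow_natCast, ← Real.rpow_mul hQq.le]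
    congr 1
    ring
  rw [h4] at h3
  have ha : 0 < 2 - 1 / p := by linarith
  exact (Real.rpow_le_rpow_iff (by positivity) (by linarith) ha).1 h3

theorem share_nonneg {Θ : Type} [Fintype Θ] {N q : ℕ} (A : Finset (Fin N → Fin q → Θ)) :
    0 ≤ share A := by
  unfold share
  positivity

theorem share_le {Θ : Type} [Fintype Θ] {N q : ℕ} (A : Finset (Fin N → Fin q → Θ)) :
    share A ≤ 1 := by
  unfold share
  refine div_le_one_of_le₀ ?_ (by positivity)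
  exact_mod_cast card_le_univ A

/-- The order is positive. -/
theorem card_pos' (hPSL : T_PSL) {Θ : Type} [Fintype Θ] [DecidableEq Θ] [AddCommGroup Θ]
    {q : ℕ} (hq : 0 < q) {N h : ℕ} {ι : Type} [Fintype ι] [DecidableEq ι]
    {A : Finset (Fin N → Fin q → Θ)} {P : (Fin N → Fin q → Θ) → Matrix ι ι ℝ}
    {S : (Fin N → Θ) → (Fin N → Fin q) → Matrix ι ι ℝ} {D v : (Fin N → Θ) → ℝ} {M m δ : ℝ}
    (h1 : ∀ s ∈ A, (P s).PosSemidef) (h2 : ∀ g ω, (S g ω).PosSemidef) (h3 : ∀ z, |D z| ≤ M)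
    (h4 : PosDeg h D) (h5 : av D = 1) (h6 : av (fun z => D z * v z) = 0) (h7 : ∀ z, 0 ≤ v z)
    (h8 : ∀ z, v z ≤ m) (h9 : 0 < m) (h10 : 0 < δ)
    (h11 : ∀ s ∈ A, ∀ g ω, v (fun i => g i + s i (ω i)) - δ = (P s * S g ω).trace)
    (h12 : 0 < share A) : (1 : ℝ) ≤ Fintype.card ι := by
  have h := hPSL Θ (5 / 4) 1 (by norm_num) (by norm_num) le_rfl N q h hq ι A P S D v M m δ h1 h2
    h3 h4 h5 h6 h7 h8 h9 h10 h11
  rcases Nat.eq_zero_or_pos (Fintype.card ι) with h0 | h0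
  · exfalso
    rw [h0] at h
    unfold XX at h
    rw [Nat.cast_zero, zero_mul, Real.zero_rpow (by norm_num), zero_mul, mul_zero, mul_zero] at h
    have : 0 < δ ^ 2 * share A := by positivity
    linarith
  · exact_mod_cast h0

theorem EXP (hPSL : T_PSL) : T_EXP := by
  intro Θ _ _ _ e he hQ1
  have hQ2 : (1 : ℝ) < (Fintype.card Θ : ℝ) := by exact_mod_cast hQ1
  set Q : ℝ := (Fintype.card Θ : ℝ) with hQd
  rcases le_or_gt (1 / 2) e with hehalf | hehalf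
  · refine ⟨1, 1, one_pos, fun q hq N h _ ι _ _ A P S D v m δ h1 h2 h3 h4 h5 h6 h7 h8 h9 _ h11 h12
      h13 => ?_⟩
    have hE : (0 : ℝ) < ((2 : ℝ) ^ N)⁻¹ := by positivity
    have hr := card_pos' hPSL (by omega) h1 h2 h3 h4 h5 h6 h7 h8 h9 (hE.trans_le h11) h13
      (hE.trans_le h12)
    refine le_trans ?_ hr
    refine Real.rpow_le_one_of_one_le_of_nonpos ?_ (by linarith)
    refine one_le_pow₀ ?_
    have : (1 : ℝ) ≤ q := by exact_mod_cast hq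
    nlinarith
  -- the main case
  obtain ⟨p, hpd⟩ : ∃ p : ℝ, p = 1 + e / 2 := ⟨_, rfl⟩
  have hp : 1 < p := by linarith
  have hp2 : p < 3 / 2 := by linarith
  have hp0 : 0 < p := by linarith
  obtain ⟨e₁, he1d⟩ : ∃ e₁ : ℝ, e₁ = e / 2 := ⟨_, rfl⟩
  obtain ⟨γ, hγd⟩ : ∃ γ : ℝ, γ = (1 - e₁) / (2 * p) - (2 - 1 / p) * (1 / 2 - e) := ⟨_, rfl⟩
  have hγ : 0 < γ := by
    have e1 : γ = (e / 2 + 2 * e ^ 2) / (2 * p) := by
      rw [hγd, he1d]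
      field_simp
      rw [hpd]
      ring
    rw [e1]
    positivity
  obtain ⟨Z, hZd⟩ : ∃ Z : ℝ, Z = 32 * (128 * Q ^ 2 * (Q + 1) ^ 2) *
      Q ^ ((2 - 1 / p) * (1 / 2 - e)) * (((p - 1) / Q) ^ ((1 - e₁) / (2 * p)))⁻¹ := ⟨_, rfl⟩
  have hev : ∀ᶠ q : ℕ in Filter.atTop, Z ≤ (q : ℝ) ^ γ :=
    ((tendsto_rpow_atTop hγ).comp tendsto_natCast_atTop_atTop).eventually_ge_atTop Z
  have hev2 : ∀ᶠ q : ℕ in Filter.atTop, Q / (p - 1) ≤ (q : ℝ) :=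
    tendsto_natCast_atTop_atTop.eventually_ge_atTop _
  obtain ⟨q₀, hq₀⟩ := Filter.eventually_atTop.1 (hev.and hev2)
  refine ⟨q₀ + 1, e₁, by rw [he1d]; linarith, fun q hq N h hN ι _ _ A P S D v m δ h1 h2 h3 h4 h5
    h6 h7 h8 h9 h10 h11 h12 h13 => ?_⟩
  obtain ⟨hZ, hqQ⟩ := hq₀ q (by omega)
  have hq0 : 0 < q := by omega
  have hqr : (0 : ℝ) < q := by exact_mod_cast hq0
  have hp1 : 0 < p - 1 := by linarith
  have hQ0 : 0 < Q := by linarith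
  have hE : (0 : ℝ) < ((2 : ℝ) ^ N)⁻¹ := by positivity
  have hr := card_pos' hPSL hq0 h1 h2 h3 h4 h5 h6 h7 h8 h9 (hE.trans_le h11) h13
    (hE.trans_le h12)
  obtain ⟨τ, hτd⟩ : ∃ τ : ℝ, τ = (p - 1) * q / Q := ⟨_, rfl⟩
  have hτ1 : 1 ≤ τ := by
    rw [hτd, le_div_iff₀ hQ0, one_mul]
    rw [div_le_iff₀ hp1] at hqQ
    linarith
  obtain ⟨σ, hσd⟩ : ∃ σ : ℝ, σ = τ ^ (1 / (2 * p)) := ⟨_, rfl⟩
  have hσ1 : 1 ≤ σ := by
    rw [hσd]
    exact Real.one_le_rpow hτ1 (by positivity)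
  have hσp : σ ^ (2 * p) = (p - 1) * q / Q := by
    rw [hσd, ← Real.rpow_mul (by linarith), one_div, inv_mul_cancel₀ (by positivity),
      Real.rpow_one, hτd]
  have H := hPSL Θ p σ hp hp2 hσ1 N q h hq0 ι A P S D v (Q ^ N) m δ h1 h2 h3 h4 h5 h6 h7 h8 h9
    (hE.trans_le h11) h13
  rw [← hQd] at H
  have hX := xx_le (N := N) (h := h) hQ2.le hqr hp hp2 (by linarith) hσp
    (show (0 : ℝ) ≤ (Fintype.card ι : ℝ) by positivity) h9.le (share_nonneg A) (share_le A)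
  have H2 := sig_le hQ2.le (show 0 < σ by linarith)
    (show (0 : ℝ) ≤ (Fintype.card ι : ℝ) by positivity) h9 h10 h11 h12 hX H
  refine fin_le hQ2.le hqr hp hσ1 hr hN ?_ H2
  -- the choice of `q₀`
  have b1 : σ ^ (1 - e₁) = ((p - 1) / Q) ^ ((1 - e₁) / (2 * p)) *
      (q : ℝ) ^ ((1 - e₁) / (2 * p)) := by
    rw [hσd, ← Real.rpow_mul (by linarith), ← Real.mul_rpow (by positivity) hqr.le, hτd]
    congr 1
    · ring
    · ring
  have b2 : (Q * q) ^ ((2 - 1 / p) * (1 / 2 - e)) = Q ^ ((2 - 1 / p) * (1 / 2 - e)) *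
      (q : ℝ) ^ ((2 - 1 / p) * (1 / 2 - e)) := Real.mul_rpow hQ0.le hqr.le
  have b3 : (q : ℝ) ^ ((1 - e₁) / (2 * p)) = (q : ℝ) ^ γ *
      (q : ℝ) ^ ((2 - 1 / p) * (1 / 2 - e)) := by
    rw [← Real.rpow_add hqr, hγd]
    congr 1
    ring
  have b4 : 0 < ((p - 1) / Q) ^ ((1 - e₁) / (2 * p)) := Real.rpow_pos_of_pos (by positivity) _
  have b5 : 0 < (q : ℝ) ^ ((2 - 1 / p) * (1 / 2 - e)) := Real.rpow_pos_of_pos hqr _
  rw [b1, b2, b3]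
  have b6 : 32 * (128 * Q ^ 2 * (Q + 1) ^ 2) * Q ^ ((2 - 1 / p) * (1 / 2 - e)) ≤
      ((p - 1) / Q) ^ ((1 - e₁) / (2 * p)) * (q : ℝ) ^ γ := by
    rw [hZd] at hZ
    have := mul_le_mul_of_nonneg_left hZ b4.le
    rw [mul_comm (32 * (128 * Q ^ 2 * (Q + 1) ^ 2) * Q ^ ((2 - 1 / p) * (1 / 2 - e))),
      ← mul_assoc, mul_inv_cancel₀ b4.ne', one_mul] at this
    exact this
  have b7 := mul_le_mul_of_nonneg_right b6 b5.le
  linarith

end Pool.Agent.H68.PSD
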